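import Mathlib
import Pool.Agent.Helper9.Th.Sol

set_option autoImplicit false

namespace Pool.Agent.Th

open Subgroup Pointwise

section

variable {G : Type} [Group G]

theorem cj_iSup {ι : Sort*} (g : G) (Q : ι → Subgroup G) : cj g (⨆ i, Q i) = ⨆ i, cj g (Q i) :=
  map_iSup _ _

/-- the join of a finite family of 2-subgroups normalising each other is a 2-group. -/
theorem isPGroup_iSup {ι : Type} [Finite ι] (Q : ι → Subgroup G) (h : ∀ i, IsPGroup 2 (Q i))
    (hn : ∀ i j, ∀ x ∈ Q i, cj x (Q j) ≤ Q j) : IsPGroup 2 (⨆ i, Q i : Subgroup G) := by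
  classical
  have := Fintype.ofFinite ι
  have key : ∀ s : Finset ι, IsPGroup 2 (⨆ i ∈ s, Q i : Subgroup G) := by
    intro s
    induction s using Finset.induction_on with
    | empty =>
      have : (⨆ i ∈ (∅ : Finset ι), Q i : Subgroup G) = ⊥ := by simp
      rw [this]; exact IsPGroup.of_bot
    | insert a s ha ih =>
      rw [Finset.iSup_insert]
      apply isPGroup_sup (h a) ih
      intro x hx y hy
      have h1 : cj x (⨆ i ∈ s, Q i) ≤ ⨆ i ∈ s, Q i := by
        rw [cj_iSup]
        apply iSup_mono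
        intro i
        rw [cj_iSup]
        exact iSup_mono fun hi => hn a i x hx
      exact h1 (conj_mem_cj hy)
  have h1 := key Finset.univ
  have h2 : (⨆ i ∈ (Finset.univ : Finset ι), Q i : Subgroup G) = ⨆ i, Q i := by simp
  rwa [h2] at h1

theorem card_map_lt {G' : Type} [Group G'] [Finite G] (f : G →* G') (A : Subgroup G) {b : G}
    (hb : b ∈ A) (hb1 : b ≠ 1) (hf : f b = 1) : Nat.card (A.map f) < Nat.card A := by
  refine lt_of_le_of_ne (card_map_le f A) fun he => hb1 ?_
  have hs : Function.Surjective (fun x : A => (⟨f x, mem_map_of_mem f x.2⟩ : A.map f)) := by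
    rintro ⟨_, x, hx, rfl⟩
    exact ⟨⟨x, hx⟩, rfl⟩
  have hfin : Finite (A.map f) := Finite.of_surjective _ hs
  have hi := (Nat.bijective_iff_surjective_and_card _).2 ⟨hs, he.symm⟩
  have := hi.1 (a₁ := ⟨b, hb⟩) (a₂ := 1) (by simp [hf])
  simpa using congrArg Subtype.val this

/-- `A` acting through a small image on a normal subgroup `N`. -/
theorem Bd.conj {m F : ℕ} (hB : Bd m F) [Finite G] [Group.IsSolvable G]
    {A P N : Subgroup G} [hN : N.Normal] (h : SolIn A P)
    (hc : Nat.card (A.map (MulAut.conjNormal (H := N))) ≤ m) : res (F + 1) N = ⊥ := by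
  have h1 := hB.hom h (MulAut.conjNormal (H := N)) hc
  rw [res_add]
  apply res_one_eq_bot_of_comm
  intro x hx y hy
  have h2 : (MulAut.conjNormal (H := N)) x = 1 := h1 (res_mono F le_top hx)
  have h3 := DFunLike.congr_fun h2 (⟨y, res_le _ _ hy⟩ : N)
  have h4 : x * y * x⁻¹ = y := by simpa using congrArg Subtype.val h3
  rwa [mul_inv_eq_iff_eq_mul] at h4

/-- the second case of Lemma W, in the quotient. -/
theorem case_two {m F : ℕ} (hB : Bd (m - 1) F) [Finite G] [Group.IsSolvable G]
    {A P : Subgroup G} (h : SolIn A P) (A₀ : Subgroup G) (hA₀ : A₀ ≤ A) (N : Subgroup G)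
    (hN : ∀ a ∈ A₀, cj a N ≤ N)
    (hcomm : ∀ a ∈ A, a ∉ A₀ → ∀ x ∈ cj a N, ∀ y ∈ N, x * y = y * x) (b : G) (hb : b ∈ A₀)
    (hbN : ∀ x ∈ N, b * x * b⁻¹ = x) (hc : Nat.card A₀ < m ∨ (Nat.card A₀ ≤ m ∧ b ≠ 1)) :
    res (F + 1) N = ⊥ := by
  -- A₀-invariant 2-subgroups of N lie in P
  have key : ∀ Q : Subgroup G, Q ≤ N → IsPGroup 2 Q → (∀ a ∈ A₀, cj a Q ≤ Q) → Q ≤ P := by
    intro Q hQN hQ hQA
    have hQA' : ∀ a ∈ A₀, cj a Q = Q := fun a ha => cj_eq_of_le (hQA a ha)
    have h1 : IsPGroup 2 (⨆ a : A, cj (a : G) Q : Subgroup G) := by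
      apply isPGroup_iSup
      · intro a; exact isPGroup_cj hQ
      · rintro a c x hx
        by_cases hac : ((a : G)⁻¹ * (c : G)) ∈ A₀
        · have h2 : cj (c : G) Q = cj (a : G) Q := by
            have : (c : G) = (a : G) * ((a : G)⁻¹ * (c : G)) := by rw [mul_inv_cancel_left]
            rw [this, ← cj_cj]
            congr 1
            exact hQA' _ hac
          rw [h2, cj_self_of_mem hx]
        · rw [cj_le_iff]
          intro y hy
          have hx' : (a : G)⁻¹ * x * a ∈ N := hQN (mem_cj.1 hx)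
          have hy' : (a : G)⁻¹ * y * a ∈ cj ((a : G)⁻¹ * (c : G)) N := by
            rw [mem_cj]
            have := hQN (mem_cj.1 hy)
            simpa [mul_assoc] using this
          have h3 := hcomm _ (A.mul_mem (A.inv_mem a.2) c.2) hac _ hy' _ hx'
          have h4 : x * y = y * x := by
            have h5 : (a : G)⁻¹ * (y * x) * a = (a : G)⁻¹ * (x * y) * a := by
              simpa [mul_assoc] using h3
            have h6 := mul_right_cancel h5
            exact (mul_left_cancel h6).symm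
          rw [h4, mul_inv_cancel_right]
          exact hy
    have h2 : (⨆ a : A, cj (a : G) Q : Subgroup G) ≤ P := by
      apply h.le_of_normalized h1
      intro a ha y hy
      have h3 : cj a (⨆ a : A, cj (a : G) Q) ≤ ⨆ a : A, cj (a : G) Q := by
        rw [cj_iSup]
        apply iSup_le
        intro c
        rw [cj_cj]
        exact le_iSup (fun a : A => cj (a : G) Q) ⟨a * c, A.mul_mem ha c.2⟩
      exact h3 (conj_mem_cj hy)
    refine le_trans ?_ h2
    have := le_iSup (fun a : A => cj (a : G) Q) 1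
    simpa using this
  -- the group Y = N A₀
  set Y : Subgroup G := N ⊔ A₀ with hY
  have hNY : N ≤ Y := le_sup_left
  have hAY : A₀ ≤ Y := le_sup_right
  have hmem : ∀ y ∈ Y, ∃ n ∈ N, ∃ a ∈ A₀, n * a = y := by
    intro y hy
    have hle : A₀ ≤ normalizer (N : Set G) := by
      intro a ha
      rw [mem_normalizer_iff]
      intro x
      constructor
      · intro hx; exact hN a ha (conj_mem_cj hx)
      · intro hx
        have := hN a⁻¹ (A₀.inv_mem ha) (conj_mem_cj hx)
        simpa [mul_assoc] using this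
    have h1 : (y : G) ∈ ((N : Set G) * (A₀ : Set G)) := by
      rw [← coe_mul_of_right_le_normalizer_left N A₀ hle]
      exact hy
    obtain ⟨n, hn, a, ha, rfl⟩ := h1
    exact ⟨n, hn, a, ha, rfl⟩
  have hNn : (N.subgroupOf Y).Normal := by
    constructor
    rintro ⟨x, hx⟩ hxN ⟨y, hy⟩
    rw [mem_subgroupOf] at hxN ⊢
    obtain ⟨n, hn, a, ha, rfl⟩ := hmem y hy
    have h1 : a * x * a⁻¹ ∈ N := hN a ha (conj_mem_cj hxN)
    have h2 := N.mul_mem (N.mul_mem hn h1) (N.inv_mem hn)
    simpa [mul_assoc] using h2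
  have hSol : SolIn (A₀.subgroupOf Y) (P.subgroupOf Y) := by
    refine ⟨h.isP.comap_of_injective Y.subtype Y.subtype_injective,
      comap_mono (hA₀.trans h.le), fun B hB2 hAB => ?_⟩
    set B₁ := B.map Y.subtype with hB₁
    have hB1 : IsPGroup 2 B₁ := hB2.map _
    have hAB1 : A₀ ≤ B₁ := fun a ha =>
      ⟨⟨a, hAY ha⟩, hAB (by rw [mem_subgroupOf]; exact ha), rfl⟩
    have hB1Y : B₁ ≤ Y := by rintro _ ⟨y, _, rfl⟩; exact y.2
    have h1 : B₁ ⊓ N ≤ P := by
      apply key _ inf_le_right (hB1.to_le inf_le_left)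
      intro a ha
      rw [cj_inf]
      exact inf_le_inf (cj_self_of_mem (hAB1 ha)).le (hN a ha)
    intro y hy
    rw [mem_subgroupOf]
    have hy1 : (y : G) ∈ B₁ := mem_map_of_mem Y.subtype hy
    obtain ⟨n, hn, a, ha, hna⟩ := hmem y y.2
    have hn1 : n ∈ B₁ := by
      have : n = (y : G) * a⁻¹ := by rw [← hna, mul_inv_cancel_right]
      rw [this]
      exact B₁.mul_mem hy1 (B₁.inv_mem (hAB1 ha))
    rw [← hna]
    exact P.mul_mem (h1 ⟨hn1, hn⟩) (h.le (hA₀ ha))
  have hcard : Nat.card ((A₀.subgroupOf Y).map (MulAut.conjNormal (H := N.subgroupOf Y))) ≤ m - 1 := by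
    rcases hc with hc | ⟨hc, hb1⟩
    · have h1 := card_map_le (MulAut.conjNormal (H := N.subgroupOf Y)) (A₀.subgroupOf Y)
      have h2 := card_subgroupOf_le A₀ Y
      omega
    · have h1 := card_map_lt (MulAut.conjNormal (H := N.subgroupOf Y)) (A₀.subgroupOf Y)
        (b := ⟨b, hAY hb⟩) (by rw [mem_subgroupOf]; exact hb)
        (fun h => hb1 (congrArg Subtype.val h)) (by
          ext ⟨x, hx⟩
          rw [mem_subgroupOf] at hx
          simpa using hbN _ hx)
      have h2 := card_subgroupOf_le A₀ Y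
      omega
  have hfin := hB.conj hSol hcard
  have h1 : (N.subgroupOf Y).map Y.subtype = N := by
    rw [subgroupOf_map_subtype, inf_eq_left.2 hNY]
  rw [← h1, ← res_map_subtype, hfin, Subgroup.map_bot]

end

end Pool.Agent.Th
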