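import Mathlib
import Pool.Agent.Helper35.Th.LemW1

set_option autoImplicit false

namespace Pool.Agent.Th

open Subgroup Pointwise

section

variable {G : Type} [Group G]

/-- `res` of a join of finitely many subgroups of `M` that are normal in `M`. -/
theorem res_iSup_le' [Finite G] {ι : Type} [Finite ι] (k : ℕ) (M : Subgroup G) (J : ι → Subgroup G)
    (hJM : ∀ i, J i ≤ M) (hJ : ∀ i, ∀ x ∈ M, ∀ y ∈ J i, x * y * x⁻¹ ∈ J i) {N : Subgroup G}
    (h : ∀ i, res k (J i) ≤ N) : res k (⨆ i, J i) ≤ N := by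
  have h1 : ∀ i, ((J i).subgroupOf M).Normal := by
    intro i
    constructor
    rintro ⟨y, hy⟩ hyJ ⟨x, hx⟩
    rw [mem_subgroupOf] at hyJ ⊢
    exact hJ i x hx y hyJ
  have h2 : ∀ i, ((J i).subgroupOf M).map M.subtype = J i := by
    intro i
    rw [subgroupOf_map_subtype, inf_eq_left.2 (hJM i)]
  have h3 : ∀ i, res k ((J i).subgroupOf M) ≤ N.subgroupOf M := by
    intro i
    have h3 : (res k ((J i).subgroupOf M)).map M.subtype ≤ N := by
      rw [res_map_subtype, h2]; exact h i
    exact map_le_iff_le_comap.1 h3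
  have h4 := res_iSup_le k (fun i => (J i).subgroupOf M) h1 h3
  have h5 : (⨆ i, (J i).subgroupOf M).map M.subtype = ⨆ i, J i := by
    rw [Subgroup.map_iSup]
    exact iSup_congr h2
  rw [← h5, ← res_map_subtype, map_le_iff_le_comap]
  exact h4

variable (A M C : Subgroup G)

/-- the intersection of `M` and the conjugates of `C` by the elements of `I`. -/
def NI (I : Finset A) : Subgroup G := M ⊓ ⨅ a ∈ I, cj (a : G) C

/-- the join of all `NI I` with `I` of size `s`. -/
def DI (s : ℕ) : Subgroup G := ⨆ I : {I : Finset A // I.card = s}, NI A M C I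

variable {A M C}

theorem mem_NI {I : Finset A} {x : G} : x ∈ NI A M C I ↔ x ∈ M ∧ ∀ a ∈ I, x ∈ cj (a : G) C := by
  unfold NI
  rw [mem_inf, mem_iInf]
  simp only [mem_iInf]

theorem NI_le (I : Finset A) : NI A M C I ≤ M := inf_le_left

theorem NI_anti {I J : Finset A} (h : I ⊆ J) : NI A M C J ≤ NI A M C I := by
  intro x hx
  rw [mem_NI] at hx ⊢
  exact ⟨hx.1, fun a ha => hx.2 a (h ha)⟩

theorem NI_le_DI {I : Finset A} {s : ℕ} (hs : s ≤ I.card) : NI A M C I ≤ DI A M C s := by
  obtain ⟨J, hJI, hJ⟩ := Finset.exists_subset_card_eq hs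
  exact (NI_anti hJI).trans (le_iSup (fun I : {I : Finset A // I.card = s} => NI A M C I) ⟨J, hJ⟩)

theorem conj_mem_NI [hM : M.Normal] (hC : ∀ x ∈ M, ∀ c ∈ C, x * c * x⁻¹ ∈ C) {I : Finset A} {x y : G}
    (hx : x ∈ M) (hy : y ∈ NI A M C I) : x * y * x⁻¹ ∈ NI A M C I := by
  rw [mem_NI] at hy ⊢
  refine ⟨hM.conj_mem _ hy.1 x, fun a ha => ?_⟩
  have h1 := hy.2 a ha
  rw [mem_cj] at h1 ⊢
  have h2 : (a : G)⁻¹ * x * a ∈ M := by
    have := hM.conj_mem _ hx (a : G)⁻¹
    simpa using this
  have h3 := hC _ h2 _ h1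
  simpa [mul_assoc] using h3

theorem comm_mem_NI [M.Normal] (hC : ∀ x ∈ M, ∀ c ∈ C, x * c * x⁻¹ ∈ C) [DecidableEq A]
    {I J : Finset A} {x y : G}
    (hx : x ∈ NI A M C I) (hy : y ∈ NI A M C J) : x * y * x⁻¹ * y⁻¹ ∈ NI A M C (I ∪ J) := by
  have h1 : x * y * x⁻¹ * y⁻¹ ∈ NI A M C J :=
    (NI A M C J).mul_mem (conj_mem_NI hC (NI_le _ hx) hy) ((NI A M C J).inv_mem hy)
  have h2 : x * y * x⁻¹ * y⁻¹ ∈ NI A M C I := by
    have h3 := (NI A M C I).mul_mem hx (conj_mem_NI hC (NI_le _ hy) ((NI A M C I).inv_mem hx))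
    simpa [mul_assoc] using h3
  rw [mem_NI] at h1 h2 ⊢
  refine ⟨h1.1, fun a ha => ?_⟩
  rcases Finset.mem_union.1 ha with h | h
  · exact h2.2 a h
  · exact h1.2 a h

theorem cj_NI [hM : M.Normal] (a : A) (I : Finset A) :
    cj (a : G) (NI A M C I) = NI A M C (I.map (Equiv.mulLeft a).toEmbedding) := by
  ext x
  rw [mem_cj, mem_NI, mem_NI]
  constructor
  · rintro ⟨h1, h2⟩
    refine ⟨?_, fun b hb => ?_⟩
    · have := hM.conj_mem _ h1 (a : G)
      simpa [mul_assoc] using this
    · rw [Finset.mem_map] at hb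
      obtain ⟨c, hc, rfl⟩ := hb
      have := h2 c hc
      rw [mem_cj] at this ⊢
      simpa [mul_assoc] using this
  · rintro ⟨h1, h2⟩
    refine ⟨?_, fun b hb => ?_⟩
    · have := hM.conj_mem _ h1 (a : G)⁻¹
      simpa [mul_assoc] using this
    · have := h2 (a * b) (by rw [Finset.mem_map]; exact ⟨b, hb, rfl⟩)
      rw [mem_cj] at this ⊢
      simpa [mul_assoc] using this

theorem DI_normal [M.Normal] (hC : ∀ x ∈ M, ∀ c ∈ C, x * c * x⁻¹ ∈ C)
    (hMA : ∀ g : G, ∃ x ∈ M, ∃ a ∈ A, x * a = g) (s : ℕ) : (DI A M C s).Normal := by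
  apply normal_of_cj
  intro g
  obtain ⟨x, hx, a, ha, rfl⟩ := hMA g
  rw [← cj_cj]
  have h1 : cj a (DI A M C s) ≤ DI A M C s := by
    unfold DI
    rw [cj_iSup]
    apply iSup_le
    rintro ⟨I, hI⟩
    rw [show a = ((⟨a, ha⟩ : A) : G) from rfl, cj_NI]
    exact NI_le_DI (by rw [Finset.card_map]; exact hI.ge)
  have h2 : cj x (DI A M C s) ≤ DI A M C s := by
    unfold DI
    rw [cj_iSup]
    apply iSup_mono
    intro I
    rw [cj_le_iff]
    exact fun y hy => conj_mem_NI hC hx hy
  exact (cj_mono h1).trans h2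

theorem map_mulLeft_mul (c d : A) (I : Finset A) :
    I.map (Equiv.mulLeft (c * d)).toEmbedding =
      (I.map (Equiv.mulLeft d).toEmbedding).map (Equiv.mulLeft c).toEmbedding := by
  ext x
  simp only [Finset.mem_map, Equiv.coe_toEmbedding, Equiv.coe_mulLeft]
  constructor
  · rintro ⟨y, hy, rfl⟩
    exact ⟨d * y, ⟨y, hy, rfl⟩, by rw [mul_assoc]⟩
  · rintro ⟨_, ⟨y, hy, rfl⟩, rfl⟩
    exact ⟨y, hy, by rw [mul_assoc]⟩

theorem map_mulLeft_one (I : Finset A) : I.map (Equiv.mulLeft (1 : A)).toEmbedding = I := by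
  ext x
  simp only [Finset.mem_map, Equiv.coe_toEmbedding, Equiv.coe_mulLeft, one_mul, exists_eq_right]

/-- the stabiliser of a subset of `A` under left translations. -/
def stabI (I : Finset A) : Subgroup A where
  carrier := {c | I.map (Equiv.mulLeft c).toEmbedding = I}
  mul_mem' := by
    intro c d hc hd
    show I.map _ = I
    have hc' : I.map (Equiv.mulLeft c).toEmbedding = I := hc
    have hd' : I.map (Equiv.mulLeft d).toEmbedding = I := hd
    rw [map_mulLeft_mul, hd', hc']
  one_mem' := map_mulLeft_one I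
  inv_mem' := by
    intro c hc
    show I.map _ = I
    have hc' : I.map (Equiv.mulLeft c).toEmbedding = I := hc
    conv_lhs => rw [← hc']
    rw [← map_mulLeft_mul, inv_mul_cancel, map_mulLeft_one]

theorem lemW_core {m F : ℕ} (hB : Bd (m - 1) F) [Finite G] [Group.IsSolvable G] {P : Subgroup G}
    {s : G} (h : SolIn A P) (hc : Nat.card A ≤ m) [hM : M.Normal] (hCM : C ≤ M)
    (hC : ∀ x ∈ M, ∀ c ∈ C, x * c * x⁻¹ ∈ C) (hs : s ∈ A) (hs1 : s ≠ 1)
    (hsM : ∀ x ∈ M, s * x * s⁻¹ * x⁻¹ ∈ C)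
    (hMA : ∀ g : G, ∃ x ∈ M, ∃ a ∈ A, x * a = g) : res (m * (F + 1)) M ≤ C := by
  classical
  have hfA : Fintype A := Fintype.ofFinite A
  have step : ∀ I : Finset A, I.card < Nat.card A → res (F + 1) (NI A M C I) ≤ DI A M C (I.card + 1) := by
    intro I hI
    set D := DI A M C (I.card + 1) with hD
    have hDn : D.Normal := DI_normal hC hMA _
    obtain ⟨a, ha⟩ : ∃ a : A, a ∉ I := by
      by_contra hcon
      push Not at hcon
      have : I = Finset.univ := Finset.eq_univ_of_forall hcon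
      rw [this, Finset.card_univ, Nat.card_eq_fintype_card] at hI
      exact lt_irrefl _ hI
    set b : A := a * ⟨s, hs⟩ * a⁻¹ with hb
    have hbx : ∀ x ∈ M, (b : G) * x * (b : G)⁻¹ * x⁻¹ ∈ NI A M C {a} := by
      intro x hx
      rw [mem_NI]
      have h1 : (a : G)⁻¹ * x * a ∈ M := by
        have := hM.conj_mem _ hx (a : G)⁻¹
        simpa using this
      have h2 := hsM _ h1
      have h3 : (a : G)⁻¹ * ((b : G) * x * (b : G)⁻¹ * x⁻¹) * a ∈ C := by
        have h4 : (a : G)⁻¹ * ((b : G) * x * (b : G)⁻¹ * x⁻¹) * a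
            = s * ((a : G)⁻¹ * x * a) * s⁻¹ * ((a : G)⁻¹ * x * a)⁻¹ := by
          rw [hb]; simp [mul_assoc]
        rw [h4]; exact h2
      refine ⟨?_, fun c hc => ?_⟩
      · exact M.mul_mem (hM.conj_mem _ hx _) (M.inv_mem hx)
      · rw [Finset.mem_singleton] at hc
        subst hc
        rw [mem_cj]; exact h3
    have hIa : I.card + 1 ≤ (I ∪ {a}).card := by
      rw [Finset.union_comm, ← Finset.insert_eq, Finset.card_insert_of_notMem ha]
    by_cases hbI : I.map (Equiv.mulLeft b).toEmbedding = I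
    · -- second case
      set AI : Subgroup A := stabI I with hAI
      have hmemAI : ∀ c : A, c ∈ AI ↔ I.map (Equiv.mulLeft c).toEmbedding = I := fun c => Iff.rfl
      set f := QuotientGroup.mk' D with hf
      have hfs : Function.Surjective f := QuotientGroup.mk'_surjective _
      have hfD : ∀ x, f x = 1 ↔ x ∈ D := fun x => by
        rw [hf, ← MonoidHom.mem_ker, QuotientGroup.ker_mk']
      have hsolv : Group.IsSolvable (G ⧸ D) := Group.isSolvable_of_surjective hfs
      have hcj : ∀ g : G, ∀ K : Subgroup G, cj (f g) (K.map f) = (cj g K).map f := by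
        intro g K
        unfold cj
        rw [map_map, map_map]
        congr 1
      have hcomm : ∀ x ∈ M, ∀ y ∈ M, x * y * x⁻¹ * y⁻¹ ∈ D → f x * f y = f y * f x := by
        intro x _ y _ hxy
        rw [← hfD] at hxy
        rw [map_mul, map_mul, map_mul, map_inv, map_inv, mul_inv_eq_one, mul_inv_eq_iff_eq_mul] at hxy
        exact hxy
      rw [res_le_iff_map_mk]
      refine case_two hB (h.map f hfs) ((AI.map A.subtype).map f) (map_mono ?_) _ ?_ ?_ (f b) ?_ ?_ ?_
      · rintro _ ⟨x, _, rfl⟩; exact x.2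
      · rintro _ ⟨_, ⟨c, hc, rfl⟩, rfl⟩
        rw [hcj]
        apply map_mono
        rw [show (A.subtype c : G) = (c : G) from rfl, cj_NI, (hmemAI c).1 hc]
      · rintro _ ⟨c, hc, rfl⟩ hcn
        rw [hcj, show c = ((⟨c, hc⟩ : A) : G) from rfl, cj_NI]
        rintro _ ⟨x, hx, rfl⟩ _ ⟨y, hy, rfl⟩
        apply hcomm x (NI_le _ hx) y (NI_le _ hy)
        refine NI_le_DI ?_ (comm_mem_NI hC hx hy)
        have hne : I.map (Equiv.mulLeft (⟨c, hc⟩ : A)).toEmbedding ≠ I := by
          intro he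
          exact hcn ⟨c, ⟨⟨c, hc⟩, (hmemAI _).2 he, rfl⟩, rfl⟩
        by_contra hlt
        push Not at hlt
        have h1 : (I.map (Equiv.mulLeft (⟨c, hc⟩ : A)).toEmbedding ∪ I) = I :=
          (Finset.eq_of_subset_of_card_le Finset.subset_union_right (by omega)).symm
        have h2 : I.map (Equiv.mulLeft (⟨c, hc⟩ : A)).toEmbedding ⊆ I := by
          conv_rhs => rw [← h1]
          exact Finset.subset_union_left
        exact hne (Finset.eq_of_subset_of_card_le h2 (by rw [Finset.card_map]))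
      · exact ⟨b, ⟨b, (hmemAI b).2 hbI, rfl⟩, rfl⟩
      · rintro _ ⟨x, hx, rfl⟩
        have h1 : (b : G) * x * (b : G)⁻¹ ∈ NI A M C I := by
          have := conj_mem_cj (g := (b : G)) hx
          rwa [cj_NI, hbI] at this
        have h2 : (b : G) * x * (b : G)⁻¹ * x⁻¹ ∈ D := by
          refine NI_le_DI hIa ?_
          have h3 := hbx x (NI_le _ hx)
          have h4 := (NI A M C I).mul_mem h1 ((NI A M C I).inv_mem hx)
          rw [mem_NI] at h3 h4 ⊢
          refine ⟨h3.1, fun c hc => ?_⟩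
          rcases Finset.mem_union.1 hc with hc | hc
          · exact h4.2 c hc
          · exact h3.2 c hc
        rw [← hfD, map_mul, map_inv, mul_inv_eq_one] at h2
        conv_rhs => rw [← h2]
        rw [map_mul, map_mul, map_inv]
      · have hb1 : (b : G) ≠ 1 := by
          intro hb1
          apply hs1
          have h1 : (a : G) * s * (a : G)⁻¹ = 1 := by
            rw [← hb1, hb]; rfl
          have h2 := congrArg (fun z => (a : G)⁻¹ * z * a) h1
          simpa [mul_assoc] using h2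
        have hle : Nat.card (AI.map A.subtype) ≤ m := by
          refine le_trans (card_le_of_le ?_) hc
          rintro _ ⟨x, _, rfl⟩; exact x.2
        by_cases hfb : f b = 1
        · left
          exact lt_of_lt_of_le (card_map_lt f _ ⟨b, (hmemAI b).2 hbI, rfl⟩ hb1 hfb) hle
        · right
          exact ⟨(card_map_le f _).trans hle, hfb⟩
    · -- first case
      refine le_trans (res_antitone _ (Nat.succ_le_succ (Nat.zero_le F))) ?_
      apply res_one_le_of_comm
      intro x hx y hy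
      have h1 : (b : G) * x * (b : G)⁻¹ ∈ NI A M C (I.map (Equiv.mulLeft b).toEmbedding) := by
        rw [← cj_NI]; exact conj_mem_cj hx
      have h2 := hbx x (NI_le _ hx)
      set c := (b : G) * x * (b : G)⁻¹ * x⁻¹ with hcdef
      set z := (b : G) * x * (b : G)⁻¹ with hz
      have hx' : x = c⁻¹ * z := by rw [hcdef]; simp
      have h3 : z * y * z⁻¹ * y⁻¹ ∈ D := by
        refine NI_le_DI ?_ (comm_mem_NI hC h1 hy)
        by_contra hlt
        push Not at hlt
        have h1 : (I.map (Equiv.mulLeft b).toEmbedding ∪ I) = I :=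
          (Finset.eq_of_subset_of_card_le Finset.subset_union_right (by omega)).symm
        have h2 : I.map (Equiv.mulLeft b).toEmbedding ⊆ I := by
          conv_rhs => rw [← h1]
          exact Finset.subset_union_left
        exact hbI (Finset.eq_of_subset_of_card_le h2 (by rw [Finset.card_map]))
      have h4 : c⁻¹ * y * c⁻¹⁻¹ * y⁻¹ ∈ D := by
        refine NI_le_DI ?_ (comm_mem_NI hC ((NI A M C {a}).inv_mem h2) hy)
        rwa [Finset.union_comm]
      have h5 : c⁻¹ * (z * y * z⁻¹ * y⁻¹) * c ∈ D := by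
        have := hDn.conj_mem _ h3 c⁻¹
        simpa using this
      have h6 := D.mul_mem h5 h4
      have h7 : x * y * x⁻¹ * y⁻¹ = c⁻¹ * (z * y * z⁻¹ * y⁻¹) * c * (c⁻¹ * y * c⁻¹⁻¹ * y⁻¹) := by
        conv_lhs => rw [hx']
        group
      rw [h7]; exact h6
  have main : ∀ j : ℕ, j ≤ Nat.card A → res (j * (F + 1)) M ≤ DI A M C j := by
    intro j
    induction j with
    | zero =>
      intro _
      rw [Nat.zero_mul]
      refine (res_le 0 M).trans ?_
      have : M ≤ NI A M C ∅ := by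
        intro x hx
        rw [mem_NI]
        exact ⟨hx, fun a ha => absurd ha (Finset.notMem_empty a)⟩
      exact this.trans (NI_le_DI (Nat.zero_le _))
    | succ j ih =>
      intro hj
      have h1 := ih (by omega)
      have h2 : res (F + 1) (DI A M C j) ≤ DI A M C (j + 1) := by
        apply res_iSup_le' (F + 1) M
        · rintro ⟨I, hI⟩; exact NI_le _
        · rintro ⟨I, hI⟩ x hx y hy; exact conj_mem_NI hC hx hy
        · rintro ⟨I, hI⟩
          have := step I (by omega)
          rwa [hI] at this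
      rw [Nat.succ_mul]
      exact res_le_of_res_le h1 h2
  have h1 := main _ le_rfl
  have h2 : DI A M C (Nat.card A) ≤ C := by
    apply iSup_le
    rintro ⟨I, hI⟩ x hx
    have hI' : I = Finset.univ := by
      rw [← Finset.card_eq_iff_eq_univ, hI, Nat.card_eq_fintype_card]
    rw [mem_NI] at hx
    have h3 : (1 : A) ∈ I := hI' ▸ Finset.mem_univ _
    have := hx.2 1 h3
    simpa using this
  exact (res_antitone M (Nat.mul_le_mul_right _ hc)).trans (h1.trans h2)

end

theorem lemW : LemW := by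
  intro m F hB G _ _ _ A P M C s h hc hM hCM hC hs hs1 hsC hsM
  set Y : Subgroup G := M ⊔ A with hY
  have hMY : M ≤ Y := le_sup_left
  have hAY : A ≤ Y := le_sup_right
  have hMn : (M.subgroupOf Y).Normal := inferInstance
  have h1 := lemW_core (A := A.subgroupOf Y) (M := M.subgroupOf Y) (C := C.subgroupOf Y) hB
    (s := ⟨s, hAY hs⟩) (h.subgroupOf hAY) ((card_subgroupOf_le A Y).trans hc)
    (comap_mono hCM) (by
      rintro ⟨x, hx⟩ hxM ⟨c, hc⟩ hcC
      rw [mem_subgroupOf] at hxM hcC ⊢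
      exact hC x hxM c hcC) (by rw [mem_subgroupOf]; exact hs)
    (fun h => hs1 (congrArg Subtype.val h)) (by
      rintro ⟨x, hx⟩ hxM
      rw [mem_subgroupOf] at hxM ⊢
      exact hsM x hxM) (by
      rintro ⟨g, hg⟩
      have h2 : (g : G) ∈ ((M : Set G) * (A : Set G)) := by
        rw [← normal_mul M A]; exact hg
      obtain ⟨x, hx, a, ha, hxa⟩ := h2
      exact ⟨⟨x, hMY hx⟩, by rw [mem_subgroupOf]; exact hx, ⟨a, hAY ha⟩, by
        rw [mem_subgroupOf]; exact ha, Subtype.ext hxa⟩)
  have h3 : (M.subgroupOf Y).map Y.subtype = M := by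
    rw [subgroupOf_map_subtype, inf_eq_left.2 hMY]
  rw [← h3, ← res_map_subtype, map_le_iff_le_comap]
  exact h1

end Pool.Agent.Th
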