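import Mathlib
import Pool.Agent.Helper9.Th.Basic2

set_option autoImplicit false

namespace Pool.Agent.Th

open Subgroup Pointwise

/-- invariant Sylow subgroups for a 2-group acting on a group of odd order -/
theorem exists_inv_sylow {X : Type} [Group X] [Finite X] (hX : ¬ 2 ∣ Nat.card X) {P : Type}
    [Group P] (hP : IsPGroup 2 P) (φ : P →* MulAut X) (r : ℕ) [Fact r.Prime] :
    ∃ R : Sylow r X, ∀ p : P, ∀ x ∈ (R : Subgroup X), φ p x ∈ (R : Subgroup X) := by
  let _ : MulAction P (Sylow r X) := MulAction.compHom _ φ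
  have h1 : ¬ 2 ∣ Nat.card (Sylow r X) := fun h => by
    obtain ⟨R₀⟩ : Nonempty (Sylow r X) := inferInstance
    exact hX (h.trans (R₀.card_dvd_index.trans (index_dvd_card _)))
  obtain ⟨R, hR⟩ := hP.nonempty_fixed_point_of_prime_not_dvd_card (Sylow r X) h1
  refine ⟨R, fun p x hx => ?_⟩
  have h2 : φ p • R = R := hR p
  have h3 : φ p • (R : Subgroup X) = R := congrArg Sylow.toSubgroup h2
  rw [← h3]
  exact Subgroup.smul_mem_pointwise_smul x (φ p) _ hx

variable {G : Type} [Group G]

/-- Frattini argument with a subgroup `P` of 2-power order: `Y` a group, `X` a normal subgroup of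
odd order, `P` a 2-subgroup.  There is a `P`-invariant Sylow subgroup of `X`. -/
theorem exists_inv_sylow_sub [Finite G] (X P : Subgroup G) [X.Normal] (hX : ¬ 2 ∣ Nat.card X)
    (hP : IsPGroup 2 P) (r : ℕ) [Fact r.Prime] :
    ∃ R : Sylow r X, P ≤ normalizer (((R : Subgroup X).map X.subtype : Subgroup G) : Set G) := by
  obtain ⟨R, hR⟩ := exists_inv_sylow hX hP ((MulAut.conjNormal (H := X)).comp P.subtype) r
  refine ⟨R, fun p hp => ?_⟩
  have key : ∀ q ∈ P, ∀ x ∈ (R : Subgroup X).map X.subtype,
      q * x * q⁻¹ ∈ (R : Subgroup X).map X.subtype := by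
    rintro q hq _ ⟨x, hx, rfl⟩
    exact ⟨_, hR ⟨q, hq⟩ x hx, by simp⟩
  rw [mem_normalizer_iff]
  intro x
  constructor
  · exact key p hp x
  · intro hx
    have := key p⁻¹ (P.inv_mem hp) _ hx
    simpa [mul_assoc] using this

/-- the minimality step -/
theorem supp_aux [Finite G] (K Q P : Subgroup G) [K.Normal] [Q.Normal] (hK : ¬ 2 ∣ Nat.card K)
    (hP : IsPGroup 2 P) (_ : Q ≤ K)
    (hmin : ∀ S : Subgroup G, P ≤ S → Q ≤ S → S ⊔ K = ⊤ → S = ⊤)
    (hQs : Group.IsSolvable Q) : Group.IsSolvable K := by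
  set f := QuotientGroup.mk' Q with hf
  have hfs : Function.Surjective f := QuotientGroup.mk'_surjective _
  set X : Subgroup (G ⧸ Q) := K.map f with hX
  have hXn : X.Normal := Normal.map ‹_› _ hfs
  have hXc : ¬ 2 ∣ Nat.card X := fun h => hK (h.trans (card_map_dvd K f))
  have hXnil : Group.IsNilpotent X := by
    refine ((Group.isNilpotent_of_finite_tfae (G := X)).out 0 3).2 ?_
    intro r hr R₀
    obtain ⟨R, hR⟩ := exists_inv_sylow_sub X (P.map f) hXc (hP.map f) r
    have hF := Sylow.normalizer_sup_eq_top R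
    set N' : Subgroup (G ⧸ Q) :=
      normalizer (((R : Subgroup X).map X.subtype : Subgroup (G ⧸ Q)) : Set (G ⧸ Q)) with hN'
    have h1 : N'.comap f = ⊤ := by
      apply hmin
      · exact map_le_iff_le_comap.1 hR
      · intro x hx
        rw [mem_comap]
        have : f x = 1 := by rw [hf]; simpa using hx
        rw [this]; exact N'.one_mem
      · rw [eq_top_iff]
        intro g _
        have h2 : f g ∈ X ⊔ N' := by rw [sup_comm, hF]; exact mem_top _
        rw [mem_sup_of_normal_left] at h2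
        obtain ⟨x, hx, n, hn, hxn⟩ := h2
        obtain ⟨k, hk, rfl⟩ := hx
        have h3 : f (k⁻¹ * g) ∈ N' := by
          rw [map_mul, map_inv, ← hxn, inv_mul_cancel_left]; exact hn
        have h4 : g = k * (k⁻¹ * g) := by group
        rw [h4]
        exact mul_mem (mem_sup_right hk) (mem_sup_left h3)
    have h2 : N' = ⊤ := by
      rw [eq_top_iff]
      intro y _
      obtain ⟨g, rfl⟩ := hfs y
      have : g ∈ N'.comap f := by rw [h1]; exact mem_top _
      exact this
    have h3 : ((R : Subgroup X).map X.subtype : Subgroup (G ⧸ Q)).Normal := by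
      rw [← normalizer_eq_top_iff]; exact h2
    have h4 : (R : Subgroup X).Normal := by
      constructor
      intro x hx g
      have h5 := h3.conj_mem _ (mem_map_of_mem X.subtype hx) (g : G ⧸ Q)
      obtain ⟨y, hy, hyx⟩ := h5
      have h6 : y = g * x * g⁻¹ := by
        apply Subtype.ext
        simpa using hyx
      rw [← h6]; exact hy
    have h5 : R₀ = R := by
      let _ := Sylow.unique_of_normal R h4
      exact Subsingleton.elim _ _
    rw [h5]; exact h4
  have hXs : Group.IsSolvable X := inferInstance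
  have hQK : Group.IsSolvable (Q.subgroupOf K) := by
    have h1 : Function.Injective ((K.subtype.comp (Q.subgroupOf K).subtype).codRestrict Q
        (fun x => x.2)) := by
      intro x y hxy
      have := congrArg Subtype.val hxy
      exact Subtype.ext (Subtype.ext this)
    exact Group.isSolvable_of_isSolvable_injective h1
  refine Group.isSolvable_of_ker_le_range (Q.subgroupOf K).subtype (f.subgroupMap K) ?_
  intro x hx
  have h1 : f x = 1 := congrArg Subtype.val hx
  rw [range_subtype, mem_subgroupOf]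
  rw [hf] at h1
  simpa using h1

theorem exists_supp [Finite G] (N P H : Subgroup G) [N.Normal]
    (hN : ¬ 2 ∣ Nat.card N) (hP : IsPGroup 2 P) (hNH : N ≤ H) (hPH : P ≤ H)
    (hsol : Group.IsSolvable (H.map (QuotientGroup.mk' N))) (q : ℕ) (hq : q.Prime) :
    ∃ Q S : Subgroup G, Q ≤ N ∧ Nat.card Q = q ^ (Nat.card N).factorization q ∧ Q ≤ S ∧ P ≤ S ∧
      S ≤ H ∧ S ⊔ N = H ∧ (∀ s ∈ S, ∀ x ∈ Q, s * x * s⁻¹ ∈ Q) ∧ Group.IsSolvable S := by
  have hqf : Fact q.Prime := ⟨hq⟩
  obtain ⟨Q₀, hQ₀⟩ := exists_inv_sylow_sub N P hN hP q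
  set Q : Subgroup G := (Q₀ : Subgroup N).map N.subtype with hQ
  have hQN : Q ≤ N := by rintro _ ⟨x, _, rfl⟩; exact x.2
  have hQcard : Nat.card Q = q ^ (Nat.card N).factorization q := by
    rw [← Sylow.card_eq_multiplicity Q₀]
    exact (Nat.card_congr ((Q₀ : Subgroup N).equivMapOfInjective _ N.subtype_injective).toEquiv).symm
  have hQp : IsPGroup q Q := Q₀.2.map _
  have hFr := Sylow.normalizer_sup_eq_top Q₀
  let prop : Subgroup G → Prop := fun S => Q ≤ S ∧ P ≤ S ∧ S ≤ H ∧ S ⊔ N = H ∧ S ≤ normalizer (Q : Set G)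
  have h0 : prop (H ⊓ normalizer (Q : Set G)) := by
    refine ⟨le_inf (hQN.trans hNH) le_normalizer, le_inf hPH hQ₀, inf_le_left, ?_, inf_le_right⟩
    apply le_antisymm (sup_le inf_le_left hNH)
    intro h hh
    have h1 : h ∈ normalizer (Q : Set G) ⊔ N := by rw [hFr]; exact mem_top _
    rw [mem_sup_of_normal_right] at h1
    obtain ⟨y, hy, n, hn, rfl⟩ := h1
    refine mul_mem (mem_sup_left ⟨?_, hy⟩) (mem_sup_right hn)
    have := H.mul_mem hh (H.inv_mem (hNH hn))
    simpa using this
  obtain ⟨S, ⟨hQS, hPS, hSH, hSN, hSQ⟩, hmin⟩ :=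
    (wellFounded_lt (α := Subgroup G)).has_min {S | prop S} ⟨_, h0⟩
  refine ⟨Q, S, hQN, hQcard, hQS, hPS, hSH, hSN, ?_, ?_⟩
  · intro s hs x hx
    exact (mem_normalizer_iff.1 (hSQ hs) x).1 hx
  -- solvability
  have hKn : (N.subgroupOf S).Normal := inferInstance
  have hQn : (Q.subgroupOf S).Normal := by
    constructor
    rintro ⟨x, hx⟩ hxQ ⟨s, hs⟩
    rw [mem_subgroupOf] at hxQ ⊢
    exact (mem_normalizer_iff.1 (hSQ hs) x).1 hxQ
  have hK2 : ¬ 2 ∣ Nat.card (N.subgroupOf S) := by
    intro h
    apply hN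
    refine h.trans ?_
    have h1 : Nat.card (N.subgroupOf S) = Nat.card ((N.subgroupOf S).map S.subtype) :=
      Nat.card_congr ((N.subgroupOf S).equivMapOfInjective _ S.subtype_injective).toEquiv
    rw [h1, subgroupOf_map_subtype]
    exact card_dvd_of_le inf_le_left
  have hQs : Group.IsSolvable (Q.subgroupOf S) := by
    have h1 : Group.IsNilpotent Q := hQp.isNilpotent
    have h2 : Function.Injective ((S.subtype.comp (Q.subgroupOf S).subtype).codRestrict Q
        (fun x => x.2)) := by
      intro x y hxy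
      have := congrArg Subtype.val hxy
      exact Subtype.ext (Subtype.ext this)
    exact Group.isSolvable_of_isSolvable_injective h2
  have hKs : Group.IsSolvable (N.subgroupOf S) := by
    apply supp_aux (N.subgroupOf S) (Q.subgroupOf S) (P.subgroupOf S) hK2
      (hP.comap_of_injective S.subtype S.subtype_injective) (comap_mono hQN) _ hQs
    intro S' hPS' hQS' hS'
    set S'' := S'.map S.subtype with hS''
    have hS''S : S'' ≤ S := by rintro _ ⟨x, _, rfl⟩; exact x.2
    have hp : prop S'' := by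
      refine ⟨?_, ?_, hS''S.trans hSH, ?_, hS''S.trans hSQ⟩
      · intro x hx
        exact ⟨⟨x, hQS hx⟩, hQS' (by rw [mem_subgroupOf]; exact hx), rfl⟩
      · intro x hx
        exact ⟨⟨x, hPS hx⟩, hPS' (by rw [mem_subgroupOf]; exact hx), rfl⟩
      · apply le_antisymm (sup_le (hS''S.trans hSH) hNH)
        rw [← hSN]
        apply sup_le _ le_sup_right
        intro s hs
        have h1 : (⟨s, hs⟩ : S) ∈ S' ⊔ N.subgroupOf S := by rw [hS']; exact mem_top _
        rw [mem_sup_of_normal_right] at h1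
        obtain ⟨y, hy, n, hn, hyn⟩ := h1
        have h2 : s = (y : G) * (n : G) := by
          have := congrArg Subtype.val hyn
          exact this.symm
        rw [h2]
        exact mul_mem (mem_sup_left (mem_map_of_mem S.subtype hy)) (mem_sup_right hn)
    have h1 : ¬ S'' < S := hmin S'' hp
    have h2 : S'' = S := by
      by_contra hne
      exact h1 (lt_of_le_of_ne hS''S hne)
    rw [eq_top_iff]
    rintro ⟨s, hs⟩ _
    rw [← h2] at hs
    obtain ⟨y, hy, hys⟩ := hs
    have : y = ⟨s, by rw [← hys]; exact y.2⟩ := Subtype.ext hys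
    rwa [← this]
  set g : S →* (H.map (QuotientGroup.mk' N)) :=
    ((QuotientGroup.mk' N).comp S.subtype).codRestrict _
      (fun x => mem_map_of_mem (QuotientGroup.mk' N) (hSH x.2)) with hg
  refine Group.isSolvable_of_ker_le_range (N.subgroupOf S).subtype g ?_
  intro x hx
  have h1 : (QuotientGroup.mk' N) (x : G) = 1 := congrArg Subtype.val hx
  rw [range_subtype, mem_subgroupOf]
  simpa using h1

end Pool.Agent.Th
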